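import Pool.Agent.MWBN.Stmts

/-!
# MWBN: from the literal systems of identities to the classes W and B (helper85)

`B_n`: `x v y t x y ≈ x v y t y x` and `x y t x v y ≈ y x t x v y` for all products `v` of `(n+1)`-th powers of
letters.
-/

set_option autoImplicit false

namespace Pool.Agent.MWBN.H85

open Pool.Agent.Helper14_MV Pool.Agent.Helper2_MV Pool.Agent.MVO Pool.Agent.MWL Pool.Agent.MWS
open Pool.Agent.MWBN

/-- every letter raised to the power `k` -/
def pw (k : ℕ) (l : List ℕ) : List ℕ := l.flatMap (fun c => List.replicate k c)

/-- the identities `D_v` and their duals -/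
def LitB (n : ℕ) (S : List ℕ → List ℕ → Prop) : Prop :=
  ∀ l : List ℕ, (∀ c ∈ l, 3 ≤ c) →
    S (0 :: (pw (n + 1) l ++ [1, 2, 0, 1])) (0 :: (pw (n + 1) l ++ [1, 2, 1, 0])) ∧
    S ([0, 1, 2, 0] ++ (pw (n + 1) l ++ [1])) ([1, 0, 2, 0] ++ (pw (n + 1) l ++ [1]))

theorem pw_cons (k z : ℕ) (l : List ℕ) : pw k (z :: l) = List.replicate k z ++ pw k l := rfl

theorem pw_sub (k : ℕ) (c : List ℕ) (h : ℕ → List ℕ) (hh : ∀ z, h (z + 3) = [z]) :
    (pw k (c.map (fun z => z + 3))).flatMap h = pw k c := by
  induction c with
  | nil => rfl
  | cons z c ih =>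
    rw [List.map_cons, pw_cons, pw_cons, List.flatMap_append, ih]
    congr 1
    rw [List.eq_replicate_iff]
    constructor
    · rw [List.length_flatMap]
      simp [hh]
    · intro b hb
      rw [List.mem_flatMap] at hb
      obtain ⟨a, ha, hb⟩ := hb
      rw [List.eq_of_mem_replicate ha, hh] at hb
      exact List.mem_singleton.1 hb

/-- raise all letters of a factor -/
theorem raise {n : ℕ} {β : FIC}
    (up : ∀ (p q : List ℕ) (x : ℕ), (x ∈ p ∨ x ∈ q) →
      RR β (p ++ x :: q) (p ++ (List.replicate (n + 1) x ++ q)))
    (c P Q : List ℕ) (hc : ∀ z ∈ c, 2 ≤ (P ++ (c ++ Q)).count z) :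
    RR β (P ++ (c ++ Q)) (P ++ (pw (n + 1) c ++ Q)) := by
  induction c generalizing P with
  | nil => exact RR.refl _
  | cons z c ih =>
    have h1 : RR β (P ++ (z :: (c ++ Q))) (P ++ (List.replicate (n + 1) z ++ (c ++ Q))) := by
      apply up
      have h2 := hc z (by simp)
      rw [List.count_append] at h2
      have h3 : ((z :: c) ++ Q).count z = (c ++ Q).count z + 1 := by
        rw [List.cons_append, List.count_cons_self]
      rw [h3] at h2
      rcases Nat.eq_zero_or_pos (P.count z) with h0 | h0
      · right
        exact List.count_pos_iff.1 (by omega)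
      · left
        exact List.count_pos_iff.1 h0
    have h4 : RR β ((P ++ List.replicate (n + 1) z) ++ (c ++ Q))
        ((P ++ List.replicate (n + 1) z) ++ (pw (n + 1) c ++ Q)) := by
      apply ih
      intro a ha
      have h5 := hc a (List.mem_cons_of_mem _ ha)
      refine le_trans h5 ?_
      simp only [List.count_append, List.cons_append, List.count_cons, List.count_replicate]
      split_ifs <;> omega
    rw [pw_cons]
    simp only [List.append_assoc, List.cons_append] at h1 h4 ⊢
    exact β.trans h1 h4

section

variable {n : ℕ} {β : FIC}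
  (up : ∀ (p q : List ℕ) (x : ℕ), (x ∈ p ∨ x ∈ q) →
    RR β (p ++ x :: q) (p ++ (List.replicate (n + 1) x ++ q)))
  (hB : LitB n (RR β))

include up hB

/-- `D_v` for words of multiple letters -/
theorem dv1 (P c T Q : List ℕ) (x y : ℕ)
    (hc : ∀ z ∈ c, 2 ≤ (P ++ x :: (c ++ y :: (T ++ x :: y :: Q))).count z) :
    RR β (P ++ x :: (c ++ y :: (T ++ x :: y :: Q))) (P ++ x :: (c ++ y :: (T ++ y :: x :: Q))) := by
  obtain ⟨h, hh⟩ : ∃ h : ℕ → List ℕ, h = fun a => if a = 0 then [x] else if a = 1 then [y] else
    if a = 2 then T else [a - 3] := ⟨_, rfl⟩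
  have e0 : h 0 = [x] := by rw [hh]; rfl
  have e1 : h 1 = [y] := by rw [hh]; rfl
  have e2 : h 2 = T := by rw [hh]; rfl
  have e3 : ∀ z, h (z + 3) = [z] := by
    intro z
    rw [hh]
    simp
  have h1 := ((hB (c.map (fun z => z + 3)) (by
    intro a ha
    obtain ⟨z, _, rfl⟩ := List.mem_map.1 ha
    omega)).1).sub h
  simp only [List.flatMap_cons, List.flatMap_append, List.flatMap_nil, pw_sub _ _ _ e3, e0, e1, e2,
    List.append_nil] at h1
  have h2 := ((RR.refl (β := β) P).append h1).append (RR.refl (β := β) Q)
  have r1 := raise up c (P ++ [x]) (y :: (T ++ x :: y :: Q)) (by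
    intro z hz
    have := hc z hz
    simpa using this)
  have r2 := raise up c (P ++ [x]) (y :: (T ++ y :: x :: Q)) (by
    intro z hz
    have h3 := hc z hz
    simp only [List.count_append, List.count_cons, List.append_assoc, List.cons_append,
      List.nil_append] at h3 ⊢
    omega)
  simp only [List.append_assoc, List.cons_append, List.nil_append] at h2 r1 r2
  exact β.trans r1 (β.trans h2 r2.symm)

/-- the dual -/
theorem dv2 (P c T Q : List ℕ) (x y : ℕ)
    (hc : ∀ z ∈ c, 2 ≤ (P ++ x :: y :: (T ++ x :: (c ++ y :: Q))).count z) :
    RR β (P ++ x :: y :: (T ++ x :: (c ++ y :: Q))) (P ++ y :: x :: (T ++ x :: (c ++ y :: Q))) := by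
  obtain ⟨h, hh⟩ : ∃ h : ℕ → List ℕ, h = fun a => if a = 0 then [x] else if a = 1 then [y] else
    if a = 2 then T else [a - 3] := ⟨_, rfl⟩
  have e0 : h 0 = [x] := by rw [hh]; rfl
  have e1 : h 1 = [y] := by rw [hh]; rfl
  have e2 : h 2 = T := by rw [hh]; rfl
  have e3 : ∀ z, h (z + 3) = [z] := by
    intro z
    rw [hh]
    simp
  have h1 := ((hB (c.map (fun z => z + 3)) (by
    intro a ha
    obtain ⟨z, _, rfl⟩ := List.mem_map.1 ha
    omega)).2).sub h
  simp only [List.flatMap_cons, List.flatMap_append, List.flatMap_nil, pw_sub _ _ _ e3, e0, e1, e2,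
    List.append_nil] at h1
  have h2 := ((RR.refl (β := β) P).append h1).append (RR.refl (β := β) Q)
  have r1 := raise up c (P ++ x :: y :: (T ++ [x])) (y :: Q) (by
    intro z hz
    have := hc z hz
    simpa using this)
  have r2 := raise up c (P ++ y :: x :: (T ++ [x])) (y :: Q) (by
    intro z hz
    have h3 := hc z hz
    simp only [List.count_append, List.count_cons, List.append_assoc, List.cons_append,
      List.nil_append] at h3 ⊢
    omega)
  simp only [List.append_assoc, List.cons_append, List.nil_append] at h2 r1 r2
  exact β.trans r1 (β.trans h2 r2.symm)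

/-- two letters commute if both are in a factor of multiple letters in another place -/
theorem ddB (p q : List ℕ) (x y : ℕ) (c : List ℕ)
    (hf : (∃ r s, p = r ++ c ++ s) ∨ (∃ r s, q = r ++ c ++ s)) (hx : x ∈ c) (hy : y ∈ c)
    (hm : ∀ z ∈ c, 2 ≤ (p ++ x :: y :: q).count z) :
    RR β (p ++ x :: y :: q) (p ++ y :: x :: q) := by
  by_cases hxy : x = y
  · subst hxy
    exact RR.refl _
  have hm' : ∀ z ∈ c, 2 ≤ (p ++ y :: x :: q).count z := by
    intro z hz
    have h3 := hm z hz
    simp only [List.count_append, List.count_cons] at h3 ⊢
    omega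
  have hsplit : (∃ c1 c2 c3, c = c1 ++ x :: (c2 ++ y :: c3)) ∨
      (∃ c1 c2 c3, c = c1 ++ y :: (c2 ++ x :: c3)) := by
    obtain ⟨a, b, rfl⟩ := List.append_of_mem hx
    rw [List.mem_append, List.mem_cons] at hy
    rcases hy with hy | hy | hy
    · obtain ⟨a1, a2, rfl⟩ := List.append_of_mem hy
      exact Or.inr ⟨a1, a2, b, by simp⟩
    · exact absurd hy.symm hxy
    · obtain ⟨b1, b2, rfl⟩ := List.append_of_mem hy
      exact Or.inl ⟨a, b1, b2, rfl⟩
  rcases hf with ⟨r, s, rfl⟩ | ⟨r, s, rfl⟩
  · rcases hsplit with ⟨c1, c2, c3, rfl⟩ | ⟨c1, c2, c3, rfl⟩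
    · have h := dv1 up hB (r ++ c1) c2 (c3 ++ s) q x y (by
        intro z hz
        have := hm z (by simp [hz])
        simpa using this)
      simpa using h
    · have h := dv1 up hB (r ++ c1) c2 (c3 ++ s) q y x (by
        intro z hz
        have := hm' z (by simp [hz])
        simpa using this)
      simpa using h.symm
  · rcases hsplit with ⟨c1, c2, c3, rfl⟩ | ⟨c1, c2, c3, rfl⟩
    · have h := dv2 up hB p c2 (r ++ c1) (c3 ++ s) x y (by
        intro z hz
        have := hm z (by simp [hz])
        simpa using this)
      simpa using h
    · have h := dv2 up hB p c2 (r ++ c1) (c3 ++ s) y x (by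
        intro z hz
        have := hm' z (by simp [hz])
        simpa using this)
      simpa using h.symm

/-- an interior occurrence commutes with its neighbour -/
theorem swB (hn : 1 ≤ n) (p u w' q : List ℕ) (x b : ℕ)
    (hc : ∀ c, c ∈ u ∨ c = b ∨ c ∈ w' → 2 ≤ (p ++ x :: (u ++ b :: x :: (w' ++ x :: q))).count c) :
    RR β (p ++ x :: (u ++ b :: x :: (w' ++ x :: q))) (p ++ x :: (u ++ x :: b :: (w' ++ x :: q))) := by
  by_cases hbx : b = x
  · subst hbx
    exact RR.refl _
  have hcnt : ∀ (i j c : ℕ), 1 ≤ i + j →
      (p ++ x :: (u ++ b :: x :: (w' ++ x :: q))).count c ≤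
        (p ++ x :: (u ++ (List.replicate i b ++ x :: (List.replicate j b ++ (w' ++ x :: q))))).count
          c := by
    intro i j c hij
    simp only [List.count_append, List.count_cons, List.count_replicate, beq_iff_eq]
    split_ifs <;> omega
  -- move `x` to the left through `b^i`
  have mv : ∀ i j : ℕ, 2 ≤ i + j →
      RR β (p ++ x :: (u ++ (List.replicate i b ++ x :: (List.replicate j b ++ (w' ++ x :: q)))))
        (p ++ x :: (u ++ x :: (List.replicate (i + j) b ++ (w' ++ x :: q)))) := by
    intro i
    induction i with
    | zero =>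
      intro j _
      simpa using RR.refl (β := β) _
    | succ i ih =>
      intro j hij
      have hstep : RR β
          (p ++ x :: (u ++ (List.replicate (i + 1) b ++ x :: (List.replicate j b ++ (w' ++ x :: q)))))
          (p ++ x :: (u ++ (List.replicate i b ++ x :: (List.replicate (j + 1) b ++
            (w' ++ x :: q))))) := by
        rcases Nat.eq_zero_or_pos j with hj | hj
        · subst hj
          have hi : 1 ≤ i := by omega
          have h := ddB up hB (p ++ x :: (u ++ List.replicate i b)) (w' ++ x :: q) b x
            (x :: (u ++ List.replicate i b)) (Or.inl ⟨p, [], by simp⟩) (by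
              simp only [List.mem_cons, List.mem_append, List.mem_replicate]
              right; right
              exact ⟨by omega, trivial⟩) (by simp) (by
              intro z hz
              have hz' : z = x ∨ z ∈ u ∨ z = b := by
                simp only [List.mem_cons, List.mem_append, List.mem_replicate] at hz
                tauto
              have h5 : 2 ≤ (p ++ x :: (u ++ b :: x :: (w' ++ x :: q))).count z := by
                rcases hz' with rfl | hz' | rfl
                · simp only [List.count_append, List.count_cons, beq_self_eq_true, if_true]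
                  omega
                · exact hc z (Or.inl hz')
                · exact hc z (Or.inr (Or.inl rfl))
              refine le_trans h5 ?_
              simp only [List.count_append, List.count_cons, List.count_replicate, beq_iff_eq]
              split_ifs <;> omega)
          have e1 : List.replicate (i + 1) b = List.replicate i b ++ [b] := by
            rw [List.replicate_succ']
          rw [e1]
          simpa using h
        · have h := ddB up hB (p ++ x :: (u ++ List.replicate i b))
            (List.replicate j b ++ (w' ++ x :: q)) b x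
            (List.replicate j b ++ (w' ++ [x])) (Or.inr ⟨[], q, by simp⟩) (by
              simp only [List.mem_append, List.mem_replicate]
              left
              exact ⟨by omega, trivial⟩) (by simp) (by
              intro z hz
              have hz' : z = b ∨ z ∈ w' ∨ z = x := by
                simp only [List.mem_append, List.mem_replicate, List.mem_singleton] at hz
                tauto
              have h5 : 2 ≤ (p ++ x :: (u ++ b :: x :: (w' ++ x :: q))).count z := by
                rcases hz' with rfl | hz' | rfl
                · exact hc z (Or.inr (Or.inl rfl))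
                · exact hc z (Or.inr (Or.inr hz'))
                · simp only [List.count_append, List.count_cons, beq_self_eq_true, if_true]
                  omega
              refine le_trans h5 ?_
              simp only [List.count_append, List.count_cons, List.count_replicate, beq_iff_eq]
              split_ifs <;> omega)
          have e1 : List.replicate (i + 1) b = List.replicate i b ++ [b] := by
            rw [List.replicate_succ']
          have e2 : List.replicate (j + 1) b = b :: List.replicate j b := by
            rw [List.replicate_succ]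
          rw [e1, e2]
          simpa using h
      have h2 := ih (j + 1) (by omega)
      have e3 : i + (j + 1) = i + 1 + j := by omega
      rw [e3] at h2
      exact β.trans hstep h2
  have hup1 : RR β (p ++ x :: (u ++ b :: x :: (w' ++ x :: q)))
      (p ++ x :: (u ++ (List.replicate (n + 1) b ++ x :: (w' ++ x :: q)))) := by
    have h := up (p ++ x :: u) (x :: (w' ++ x :: q)) b (by
      have h2 := hc b (Or.inr (Or.inl rfl))
      rcases Nat.eq_zero_or_pos ((p ++ x :: u).count b) with h0 | h0
      · right
        apply List.count_pos_iff.1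
        simp only [List.count_append, List.count_cons] at h2 h0 ⊢
        simp only [beq_self_eq_true, if_true] at h2
        omega
      · left
        exact List.count_pos_iff.1 h0)
    simpa using h
  have hup2 : RR β (p ++ x :: (u ++ x :: b :: (w' ++ x :: q)))
      (p ++ x :: (u ++ x :: (List.replicate (n + 1) b ++ (w' ++ x :: q)))) := by
    have h := up (p ++ x :: (u ++ [x])) (w' ++ x :: q) b (by
      have h2 := hc b (Or.inr (Or.inl rfl))
      rcases Nat.eq_zero_or_pos ((p ++ x :: (u ++ [x])).count b) with h0 | h0
      · right
        apply List.count_pos_iff.1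
        simp only [List.count_append, List.count_cons, List.count_nil] at h2 h0 ⊢
        simp only [beq_self_eq_true, if_true] at h2
        omega
      · left
        exact List.count_pos_iff.1 h0)
    simpa using h
  have h3 := mv (n + 1) 0 (by omega)
  simp only [List.replicate_zero, List.nil_append, Nat.add_zero] at h3
  exact β.trans hup1 (β.trans h3 hup2.symm)

end

/-- **the class B from the literal system** -/
theorem clB_of (idn : IdnStmt) {n : ℕ} {β : FIC} (hn : 1 ≤ n)
    (ap : RR β [0, 0] (List.replicate (n + 2) 0))
    (be : RR β [0, 1, 0] (List.replicate (n + 1) 0 ++ 1 :: List.replicate (n + 1) 0))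
    (hB : LitB n (RR β)) : ClB n β := by
  have up : ∀ (p q : List ℕ) (x : ℕ), (x ∈ p ∨ x ∈ q) →
      RR β (p ++ x :: q) (p ++ (List.replicate (n + 1) x ++ q)) := by
    intro p q x hx
    have h := idn n β hn ap be p q x hx 1
    rw [Nat.mul_one] at h
    exact h
  refine ⟨hn, ap, be, ⟨?_, ?_⟩, ?_⟩
  · intro p w q x _
    exact up p (w ++ x :: q) x (Or.inr (by simp))
  · intro p w w' q x hc
    induction w using List.reverseRecOn generalizing w' with
    | nil => exact RR.refl _
    | append_singleton w0 b ih =>
      have h1 := swB up hB hn p w0 w' q x b (by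
        intro c hcc
        have h2 := hc c (by
          rcases hcc with h | rfl | h
          · exact Or.inl (by simp [h])
          · exact Or.inl (by simp)
          · exact Or.inr h)
        simpa using h2)
      have h3 := ih (b :: w') (by
        intro c hcc
        have h2 := hc c (by
          rcases hcc with h | h
          · exact Or.inl (by simp [h])
          · rcases List.mem_cons.1 h with rfl | h
            · exact Or.inl (by simp)
            · exact Or.inr h)
        simp only [List.count_append, List.count_cons, List.count_nil] at h2 ⊢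
        omega)
      simp only [List.append_assoc, List.cons_append, List.nil_append] at h1 h3 ⊢
      exact β.trans h1 h3
  · exact fun p q x y c hf hx hy hm => ddB up hB p q x y c hf hx hy hm

/-- **the class W from the literal system** -/
theorem clW_of {n : ℕ} {β : FIC} (hn : 1 ≤ n)
    (ap : RR β [0, 0] (List.replicate (n + 2) 0))
    (be : RR β [0, 1, 0] (List.replicate (n + 1) 0 ++ 1 :: List.replicate (n + 1) 0))
    (ic : RR β [0, 1, 0, 1] [1, 0, 1, 0]) (f0 : RR β [0, 1, 0, 1] [1, 0, 0, 1])
    (e0 : RR β [0, 1, 1, 2, 0] ([0, 1, 1] ++ (List.replicate n 0 ++ [2, 0]))) : ClW n β := by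
  refine ⟨hn, ap, be, f0, ?_, e0⟩
  have h1 := f0.sub (fun c => if c = 0 then [1] else [0])
  have h2 : RR β [1, 0, 1, 0] [0, 1, 1, 0] := h1
  exact β.trans ic h2

end Pool.Agent.MWBN.H85
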